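import Pool.Agent.AstralLift.Main

set_option autoImplicit false

open Pool.Agent.AstralLift

/-- A 3-astral `(36_4)` configuration of dimension at least three. -/
theorem Pool.Agent.Results.MP_3f639a_co.SpatialThreeAstral.result :
    ∃ (I : Fin 36 → Fin 36 → Prop) (p : Fin 36 → Space 2) (l : Fin 36 → Set (Space 2))
      (q : Fin 36 → Space 3) (m : Fin 36 → Set (Space 3)),
      IsCombinatorialConfiguration I ∧ IsRealisation I p l ∧ IsAstral 3 p l ∧
        IsRealisation I q m ∧ ∀ x : Space 3, x ∈ affineSpan ℝ (Set.range q) :=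
  main
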